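import Pool.Agent.W660.FG.Final2
import Pool.Agent.W660.GY.M1x
import Pool.Agent.W660.GY.Main2
import Pool.Agent.W660.GY.Main3

/-!
# MP_2da52b_an: Tauberian translation-invariant subalgebras of the Fourier algebra with full spectrum

Let `G` be a locally compact Hausdorff group and let `A` be a closed, translation-invariant,
Tauberian subalgebra of the Fourier algebra `A(G)` whose characters are exactly the evaluations at
the points of `G`. Then `A = A(G)`. No countability condition is imposed, and `G` need not be
amenable. The proof uses the Gleason-Yamabe theorem, which is proved in the imported files.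
-/

set_option autoImplicit false

namespace Pool.Agent.Results.MP_2da52b_an.TauberianSubalgebrasAll

open Pool.Agent.W660.FL Pool.Agent.W660.FG
open MeasureTheory Topology

/-- **Closed translation-invariant Tauberian subalgebras with full spectrum are everything**, for
all locally compact groups. -/
theorem result (G : Type) [Group G] [TopologicalSpace G] [IsTopologicalGroup G] [T2Space G]
    [LocallyCompactSpace G] [MeasurableSpace G] [BorelSpace G] (μ : Measure G)
    [μ.IsHaarMeasure] [μ.Regular] (A : Set (G → ℂ)) (hA : IsAlg μ A) : A = FA μ :=
  final2 Pool.Agent.W660.GY.gy1x Pool.Agent.W660.GY.gy2 Pool.Agent.W660.GY.gy3 G μ A hA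

end Pool.Agent.Results.MP_2da52b_an.TauberianSubalgebrasAll
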